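import Pool.Agent.H.MP_01c350_lc.A

set_option autoImplicit false

namespace Pool.Agent.Results.MP_01c350_lc.Henson

open Cardinal Set H.MP_01c350_lc

structure FG (X : Type) where
  s : Finset X
  G : SimpleGraph X
  h : ∀ x y, G.Adj x y → x ∈ s

instance (X : Type) : Preorder (FG X) where
  le p q := q.s ⊆ p.s ∧ ∀ x ∈ q.s, ∀ y ∈ q.s, p.G.Adj x y ↔ q.G.Adj x y
  le_refl _ := ⟨subset_rfl, fun _ _ _ _ => Iff.rfl⟩
  le_trans _ _ _ h k := ⟨k.1.trans h.1, fun x a y b => (h.2 x (k.1 a) y (k.1 b)).trans (k.2 x a y b)⟩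

variable {X : Type}

open Classical in
noncomputable def res (Y : Set X) (p : FG X) : FG X :=
  ⟨p.s.filter (· ∈ Y), ⟨fun x y => p.G.Adj x y ∧ x ∈ Y ∧ y ∈ Y,
    ⟨fun _ _ h => ⟨h.1.symm, h.2.symm⟩⟩, ⟨fun _ h => h.1.ne rfl⟩⟩,
    fun x y h => Finset.mem_filter.2 ⟨p.h x y h.1, h.2.1⟩⟩

open Classical in
noncomputable def un (p q : FG X) : FG X :=
  ⟨p.s ∪ q.s, p.G ⊔ q.G, fun x y h => Finset.mem_union.2 (h.imp (p.h x y) (q.h x y))⟩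

theorem mem_res {Y : Set X} {p : FG X} {x : X} : x ∈ (res Y p).s ↔ x ∈ p.s ∧ x ∈ Y := by
  simp [res]

theorem mem_un {p q : FG X} {x : X} : x ∈ (un p q).s ↔ x ∈ p.s ∨ x ∈ q.s := by simp [un]

theorem adj_res {Y : Set X} {p : FG X} {x y : X} :
    (res Y p).G.Adj x y ↔ p.G.Adj x y ∧ x ∈ Y ∧ y ∈ Y := Iff.rfl

theorem adj_un {p q : FG X} {x y : X} : (un p q).G.Adj x y ↔ p.G.Adj x y ∨ q.G.Adj x y := Iff.rfl

theorem le_def {p q : FG X} : p ≤ q ↔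
    (∀ x ∈ q.s, x ∈ p.s) ∧ ∀ x ∈ q.s, ∀ y ∈ q.s, p.G.Adj x y ↔ q.G.Adj x y := Iff.rfl

theorem le_res (Y : Set X) (p : FG X) : p ≤ res Y p := by
  simp only [le_def, mem_res, adj_res]; tauto

theorem tri {p : FG X} :
    p.G.CliqueFree 3 ↔ ∀ x y z, p.G.Adj x y → p.G.Adj x z → ¬p.G.Adj y z := by
  classical
  refine ⟨fun h x y z a b c => h _ (SimpleGraph.is3Clique_triple_iff.2 ⟨a, b, c⟩), fun h t k => ?_⟩
  obtain ⟨x, y, z, a, b, c, -⟩ := SimpleGraph.is3Clique_iff.1 k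
  exact h x y z a b c

theorem am {Y : Set X} {c r : FG X} (h : c ≤ res Y r) (k : ↑c.s ⊆ Y) :
    un c r ≤ c ∧ un c r ≤ r ∧ (c.G.CliqueFree 3 → r.G.CliqueFree 3 → (un c r).G.CliqueFree 3) := by
  have h1 : ∀ x y, c.G.Adj x y → x ∈ r.s → y ∈ r.s → r.G.Adj x y := fun x y a b d =>
    ((h.2 x (mem_res.2 ⟨b, k (c.h x y a)⟩) y (mem_res.2 ⟨d, k (c.h y x a.symm)⟩)).1 a).1
  have h2 : ∀ x y, r.G.Adj x y → x ∈ c.s → y ∈ c.s → c.G.Adj x y := fun x y a b d =>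
    (h.2 x (mem_res.2 ⟨r.h x y a, k b⟩) y (mem_res.2 ⟨r.h y x a.symm, k d⟩)).2 ⟨a, k b, k d⟩
  refine ⟨⟨fun x a => mem_un.2 (.inl a), fun x a y b => ⟨fun l => l.elim id (h2 x y · a b), .inl⟩⟩,
    ⟨fun x a => mem_un.2 (.inr a), fun x a y b => ⟨fun l => l.elim (h1 x y · a b) id, .inr⟩⟩, ?_⟩
  simp only [tri, adj_un]
  rintro t1 t2 x y z (a | a) (b | b) (d | d)
  · exact t1 x y z a b d
  · exact t1 x y z a b (h2 _ _ d (c.h _ _ a.symm) (c.h _ _ b.symm))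
  · exact t1 x y z a (h2 _ _ b (c.h _ _ a) (c.h _ _ d.symm)) d
  · exact t2 x y z (h1 _ _ a (r.h _ _ b) (r.h _ _ d)) b d
  · exact t1 x y z (h2 _ _ a (c.h _ _ b) (c.h _ _ d)) b d
  · exact t2 x y z a (h1 _ _ b (r.h _ _ a) (r.h _ _ d.symm)) d
  · exact t2 x y z a b (h1 _ _ d (r.h _ _ a.symm) (r.h _ _ b.symm))
  · exact t2 x y z a b d

theorem fin (s : Finset X) : {p : FG X | p.s ⊆ s}.Finite := by
  refine Finite.of_injOn (f := fun p => ((p.s : Set X), {e : X × X | p.G.Adj e.1 e.2}))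
    (t := 𝒫 (s : Set X) ×ˢ 𝒫 ((s : Set X) ×ˢ (s : Set X)))
    (fun p h => ⟨h, fun e k => ⟨h (p.h _ _ k), h (p.h _ _ k.symm)⟩⟩) ?_
    (s.finite_toSet.powerset.prod (s.finite_toSet.prod s.finite_toSet).powerset)
  rintro ⟨s, G, _⟩ - ⟨t, H, _⟩ - h
  obtain rfl : s = t := Finset.coe_injective (congrArg Prod.fst h)
  obtain rfl : G = H := by
    ext x y
    exact Set.ext_iff.1 (congrArg Prod.snd h) (x, y)
  rfl

open Classical in
noncomputable def ed (a b : X) : FG X := ⟨{a, b}, SimpleGraph.edge a b, fun x y h => by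
  rw [SimpleGraph.edge_adj] at h
  rcases h.1 with h | h <;> simp [h]⟩

theorem mem_ed {a b x : X} : x ∈ (ed a b).s ↔ x = a ∨ x = b := by simp [ed]

theorem adj_ed {a b x y : X} :
    (ed a b).G.Adj x y ↔ (x = a ∧ y = b ∨ x = b ∧ y = a) ∧ x ≠ y := SimpleGraph.edge_adj ..

theorem l1 (y z : X) : (ed y z).G.CliqueFree 3 := by
  simp only [tri, adj_ed]; grind

theorem l2 {Y Z : Set X} {y z w : X} {r : FG X} (hr : r.G.CliqueFree 3) (y2 : y ∉ Z) (z2 : z ∉ Y)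
    (hw : w ∉ r.s) : (un (un (res Y r) (res Z r)) (un (ed w y) (ed w z))).G.CliqueFree 3 := by
  have w5 : ∀ x, ¬r.G.Adj w x := fun x h => hw (r.h _ _ h)
  have w6 : ∀ x, ¬r.G.Adj x w := fun x h => w5 x h.symm
  have := tri.1 hr
  simp only [tri, adj_ed, adj_un, adj_res]
  grind

theorem l3 {Y Z V : Set X} {y z w : X} {r : FG X} (hV : V = Y ∨ V = Z) (hw : w ∉ r.s) :
    res V (un (un (res Y r) (res Z r)) (un (ed w y) (ed w z))) ≤ res V r := by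
  simp only [le_def, mem_res, mem_un, adj_res, adj_un, adj_ed]
  grind

theorem l4 {Y Z : Set X} {s t : FG X}
    (k2 : ∀ a ∈ s.s, ∀ b ∈ s.s, a ∈ t.s → b ∈ t.s → a ∈ Y → b ∈ Y → (s.G.Adj a b ↔ t.G.Adj a b))
    (k4 : ∀ a ∈ s.s, ∀ b ∈ s.s, a ∈ t.s → b ∈ t.s → a ∈ Z → b ∈ Z → (s.G.Adj a b ↔ t.G.Adj a b)) :
    un s (un (res Y t) (res Z t)) ≤ s ∧ un s (un (res Y t) (res Z t)) ≤ res Y t ∧
      un s (un (res Y t) (res Z t)) ≤ res Z t := by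
  have s1 := s.h
  have s2 := fun a b (h : s.G.Adj a b) => s.h _ _ h.symm
  have t1 := t.h
  have t2 := fun a b (h : t.G.Adj a b) => t.h _ _ h.symm
  simp only [le_def, mem_res, mem_un, adj_res, adj_un]
  grind

theorem core {B : Type*} [BooleanAlgebra B] (hX : ℵ₁ < #X)
    (i : {p : FG X // p.G.CliqueFree 3} → B) (j : FG X → B) (hi : DE i) (hj : DE j) : False := by
  classical
  choose W1 w1 w2 using fun p c => hj.sep c (i p)
  choose W2 w3 w4 using fun p c => hi.sep p (j c)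
  have f2 : ∀ s : Finset X, {p : {p : FG X // p.G.CliqueFree 3} | p.1.s ⊆ s}.Finite := fun s =>
    (fin s).preimage Subtype.val_injective.injOn
  have f3 : ∀ s : Finset X, (⋃ p ∈ {p : {p : FG X // p.G.CliqueFree 3} | p.1.s ⊆ s},
      ⋃ c ∈ {c : FG X | c.s ⊆ s}, (((W1 p c).s : Set X) ∪ (W2 p c).1.s)).Countable := fun s =>
    ((f2 s).biUnion fun p _ => (fin s).biUnion fun c _ =>
      (Finset.finite_toSet _).union (Finset.finite_toSet _)).countable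
  obtain ⟨Y, Z, y, z, hY, hZ, y1, y2, z1, z2, hw⟩ := sets hX _ f3
  simp only [iUnion_subset_iff, mem_ofPred_eq, union_subset_iff] at hY hZ
  have rs : ∀ Y (p : {p : FG X // p.G.CliqueFree 3}), (res Y p.1).G.CliqueFree 3 :=
    fun Y p => p.2.anti fun _ _ h => h.1
  have cl : ∀ Y : Set X, (∀ s : Finset X, ↑s ⊆ Y → ∀ p, p.1.s ⊆ s → ∀ c, c.s ⊆ s →
      ↑(W1 p c).s ⊆ Y ∧ ↑(W2 p c).1.s ⊆ Y) →
      (∀ p r, ↑p.1.s ⊆ Y → j r ≤ i p → j (res Y r) ≤ i p) ∧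
      ∀ c r, ↑c.s ⊆ Y → i r ≤ j c → i ⟨res Y r.1, rs Y r⟩ ≤ j c := fun Y h => by
    refine ⟨fun p r a b => by_contra fun k => ?_, fun c r a b => by_contra fun k => ?_⟩
    · obtain ⟨u, v, -⟩ := am (w1 p _) (h (p.1.s ∪ (res Y r).s) (by
        rw [Finset.coe_union]; exact union_subset a fun x h => (mem_res.1 h).2) p
        Finset.subset_union_left _ Finset.subset_union_right).1
      exact hj.nz _ (le_bot_iff.1 ((le_inf (hj.mono u) ((hj.mono v).trans b)).trans_eq (w2 _ _ k)))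
    · obtain ⟨u, v, t⟩ := am (Y := Y) (r := r.1) (Subtype.coe_le_coe.2 (w3 ⟨_, rs Y r⟩ c)) (h ((res Y r.1).s ∪ c.s) (by
        rw [Finset.coe_union]; exact union_subset (fun x h => (mem_res.1 h).2) a) ⟨_, rs Y r⟩
        Finset.subset_union_left _ Finset.subset_union_right).2
      have t := t (W2 ⟨_, rs Y r⟩ c).2 r.2
      exact hi.nz ⟨_, t⟩ (le_bot_iff.1 ((le_inf (hi.mono (a := ⟨_, t⟩) (b := W2 ⟨_, rs Y r⟩ c) u)
        ((hi.mono (a := ⟨_, t⟩) (b := r) v).trans b)).trans_eq (w4 _ _ k)))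
  obtain ⟨aY, bY⟩ := cl Y hY
  obtain ⟨aZ, bZ⟩ := cl Z hZ
  have yz : y ≠ z := fun h => y2 (h ▸ z1)
  let p0 : {p : FG X // p.G.CliqueFree 3} := ⟨ed y z, l1 y z⟩
  obtain ⟨s, hs⟩ := hj.dense _ (hi.nz p0)
  obtain ⟨r, hr⟩ := hi.dense _ (hj.nz s)
  obtain ⟨w, ⟨wy, wz⟩, hw⟩ := hw.exists_notMem_finite r.1.s.finite_toSet
  have w3 : w ≠ y := fun h => y2 (h ▸ wz)
  have w4 : w ≠ z := fun h => z2 (h ▸ wy)
  let r' : {p : FG X // p.G.CliqueFree 3} := ⟨_, l2 r.2 y2 z2 hw⟩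
  obtain ⟨t, ht⟩ := hj.dense _ (hi.nz r')
  have k : ∀ V, V = Y ∨ V = Z → (∀ p r, ↑p.1.s ⊆ V → j r ≤ i p → j (res V r) ≤ i p) →
      (∀ c r, ↑c.s ⊆ V → i r ≤ j c → i ⟨res V r.1, rs V r⟩ ≤ j c) →
      j (res V t) ≤ i ⟨res V r'.1, rs V r'⟩ ∧ ∀ a ∈ s.s, ∀ b ∈ s.s, a ∈ t.s → b ∈ t.s → a ∈ V →
        b ∈ V → (s.G.Adj a b ↔ t.G.Adj a b) := fun V hV a b => by
    have k1 : j t ≤ i ⟨res V r'.1, rs V r'⟩ := ht.trans (hi.mono (le_res V r'.1))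
    have k2 : res V r'.1 ≤ res V r.1 := l3 hV hw
    obtain ⟨v, v1, v2⟩ := hj.ext (k1.trans ((hi.mono (b := ⟨res V r.1, rs V r⟩) k2).trans
      (b (res V s) r (fun x h => (mem_res.1 h).2) (hr.trans (hj.mono (le_res V s))))))
    refine ⟨a _ _ (fun x h => (mem_res.1 h).2) k1, fun a a1 b b1 a2 b2 a3 b3 => ?_⟩
    rw [← v1.2 a a2 b b2, v2.2 a (mem_res.2 ⟨a1, a3⟩) b (mem_res.2 ⟨b1, b3⟩), adj_res]
    tauto
  obtain ⟨k1, k2⟩ := k Y (.inl rfl) aY bY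
  obtain ⟨k3, k4⟩ := k Z (.inr rfl) aZ bZ
  have u := l4 k2 k4
  obtain ⟨v, hv⟩ := hi.dense _ (hj.nz (un s (un (res Y t) (res Z t))))
  obtain ⟨v1, a1, b1⟩ := hi.ext (hv.trans ((hj.mono u.1).trans hs))
  obtain ⟨v2, a2, b2⟩ := hi.ext ((hi.mono a1).trans (hv.trans ((hj.mono u.2.1).trans k1)))
  obtain ⟨v3, a3, b3⟩ := hi.ext ((hi.mono (a2.trans a1)).trans
    (hv.trans ((hj.mono u.2.2).trans k3)))
  refine tri.1 v3.2 w y z (((a3.trans b2).2 w ?_ y ?_).2 ?_) ((b3.2 w ?_ z ?_).2 ?_)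
    (((a3.trans (a2.trans b1)).2 y ?_ z ?_).2 ?_) <;>
  simp [r', p0, mem_res, mem_un, adj_res, adj_un, mem_ed, adj_ed, wy, wz, y1, z1, w3, w4, yz]

theorem result (X : Type) (hX : ℵ₁ < #X) :
    IsEmpty (Heyting.Regular (LowerSet {p : FG X // p.G.CliqueFree 3}) ≃o
      Heyting.Regular (LowerSet (FG X))) :=
  ⟨fun e => core hX _ _ ((de_ro _).map e) (de_ro _)⟩

end Pool.Agent.Results.MP_01c350_lc.Henson
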